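import Mathlib
import Pool.Agent.Lib.helper6.Dist

set_option autoImplicit false

namespace Pool.Agent.Results.MP_371ff7_co.Eight

def c : Fin 8 → ℕ := ![10, 38, 39, 42, 45, 46, 47, 54]

def d (u v : Fin 8) : ℕ := ((List.range 6).filter fun i => (c u).testBit i != (c v).testBit i).length

def G : SimpleGraph (Fin 8) where
  Adj u v := d u v = 1
  symm := ⟨by decide +kernel⟩
  loopless := ⟨by decide +kernel⟩

instance : DecidableRel G.Adj := fun u v => inferInstanceAs (Decidable (d u v = 1))

theorem result : ∃ (V : Type) (_ : Fintype V) (G : SimpleGraph V), G.Connected ∧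
    (∀ u v w, ∃! m, G.dist u m + G.dist m v = G.dist u v ∧ G.dist u m + G.dist m w = G.dist u w ∧
      G.dist v m + G.dist m w = G.dist v w) ∧
    ∃ x y, (∀ u v, G.dist u v ≤ G.dist x y) ∧ ∃ u v w, ∀ z,
      G.dist x y + G.dist x z + G.dist y z < G.dist u v + G.dist u w + G.dist v w := by
  have h := Pool.Agent.Lib.helper6.dist_eq_of_cert G d (by decide +kernel) (by decide +kernel)
    (by decide +kernel)
  refine ⟨Fin 8, inferInstance, G, ⟨fun u v => (h u v).1⟩, ?_, 0, 2, ?_, 0, 4, 7, ?_⟩ <;>
    simp only [fun u v => (h u v).2, ExistsUnique] <;> decide +kernel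

end Pool.Agent.Results.MP_371ff7_co.Eight
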